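import Mathlib

/-!
# Norms of integers and ideals of prime norm in `ℚ(√p)`, `p` prime (helper576)
-/

set_option autoImplicit false
set_option linter.all false

open NumberField

namespace Run7.h576.TP

/-- `p` is a square modulo `q`, for `q = 2`: `p` is not `5` modulo `8`. This is the condition for an ideal of
norm `q` in `ℚ(√p)`. -/
def IsRes (p q : ℕ) : Prop := if q = 2 then p % 8 ≠ 5 else ∃ r : ℤ, (q : ℤ) ∣ r ^ 2 - p

section

variable {K : Type} [Field K] [NumberField K] (hK : Module.finrank ℚ K = 2) {p : ℕ}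
  (hp : p.Prime) {s : K} (hs : s ^ 2 = (p : K))

include hp hs

theorem s_irr (a : ℚ) : s ≠ algebraMap ℚ K a := by
  rintro rfl
  have h1 : a ^ 2 = (p : ℚ) := by
    have : algebraMap ℚ K (a ^ 2) = algebraMap ℚ K (p : ℚ) := by
      rw [map_pow, hs, map_natCast]
    exact (algebraMap ℚ K).injective this
  have h2 : IsSquare ((p : ℚ)) := ⟨a, by rw [← h1]; ring⟩
  have h3 : IsSquare p := by
    have := Rat.isSquare_natCast_iff.1 h2
    exact this
  exact hp.not_isSquare h3

theorem li : LinearIndependent ℚ ![(1 : K), s] := by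
  rw [LinearIndependent.pair_iff]
  intro a b hab
  by_cases hb : b = 0
  · subst hb
    rw [zero_smul, add_zero, Algebra.smul_def, mul_one] at hab
    exact ⟨(algebraMap ℚ K).injective (by rw [hab, map_zero]), rfl⟩
  · exfalso
    apply s_irr hp hs (-(a / b))
    rw [Algebra.smul_def, Algebra.smul_def, mul_one] at hab
    have hb' : algebraMap ℚ K b ≠ 0 := by
      rw [Ne, FaithfulSMul.algebraMap_eq_zero_iff]; exact hb
    rw [map_neg, map_div₀]
    field_simp
    linear_combination hab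

include hK

/-- The basis `1, √p`. -/
noncomputable def bas : Module.Basis (Fin 2) ℚ K :=
  basisOfLinearIndependentOfCardEqFinrank (li hp hs) (by rw [Fintype.card_fin, hK])

theorem bas0 : bas hK hp hs 0 = 1 := by
  simp [bas]

theorem bas1 : bas hK hp hs 1 = s := by
  simp [bas]

theorem coords (x : K) : ∃ a b : ℚ, x = algebraMap ℚ K a + algebraMap ℚ K b * s := by
  refine ⟨(bas hK hp hs).repr x 0, (bas hK hp hs).repr x 1, ?_⟩
  conv_lhs => rw [← (bas hK hp hs).sum_repr x]
  rw [Fin.sum_univ_two, bas0, bas1, Algebra.smul_def, Algebra.smul_def, mul_one]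

theorem lmat (a b : ℚ) : Algebra.leftMulMatrix (bas hK hp hs)
    (algebraMap ℚ K a + algebraMap ℚ K b * s) = !![a, p * b; b, a] := by
  have hr : ∀ u v : ℚ, (bas hK hp hs).repr (algebraMap ℚ K u + algebraMap ℚ K v * s) 0 = u ∧
      (bas hK hp hs).repr (algebraMap ℚ K u + algebraMap ℚ K v * s) 1 = v := by
    intro u v
    have e : algebraMap ℚ K u + algebraMap ℚ K v * s =
        u • (bas hK hp hs 0) + v • (bas hK hp hs 1) := by
      rw [bas0, bas1, Algebra.smul_def, Algebra.smul_def, mul_one]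
    rw [e, map_add, map_smul, map_smul, Module.Basis.repr_self, Module.Basis.repr_self]
    constructor <;> simp
  ext i j
  rw [Algebra.leftMulMatrix_eq_repr_mul]
  fin_cases j
  · have e : (algebraMap ℚ K a + algebraMap ℚ K b * s) * (bas hK hp hs) 0 =
        algebraMap ℚ K a + algebraMap ℚ K b * s := by rw [bas0, mul_one]
    have h := hr a b
    rw [← e] at h
    fin_cases i
    · exact h.1
    · exact h.2
  · have e : (algebraMap ℚ K a + algebraMap ℚ K b * s) * (bas hK hp hs) 1 =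
        algebraMap ℚ K (p * b) + algebraMap ℚ K a * s := by
      rw [bas1, map_mul, map_natCast]
      linear_combination algebraMap ℚ K b * hs
    have h := hr (p * b) a
    rw [← e] at h
    fin_cases i
    · exact h.1
    · exact h.2

theorem norm_q (a b : ℚ) :
    Algebra.norm ℚ (algebraMap ℚ K a + algebraMap ℚ K b * s) = a ^ 2 - p * b ^ 2 := by
  rw [Algebra.norm_eq_matrix_det (bas hK hp hs), lmat, Matrix.det_fin_two_of]
  ring

theorem trace_q (a b : ℚ) :
    Algebra.trace ℚ K (algebraMap ℚ K a + algebraMap ℚ K b * s) = 2 * a := by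
  rw [Algebra.trace_eq_matrix_trace (bas hK hp hs), lmat, Matrix.trace_fin_two_of]
  ring

/-- The coordinates of an integer. -/
theorem int_coords (x : 𝓞 K) : ∃ t y : ℤ, 2 * (x : K) = (t : K) + (y : K) * s ∧
    4 * Algebra.norm ℤ x = t ^ 2 - p * y ^ 2 := by
  obtain ⟨a, b, hx⟩ := coords hK hp hs (x : K)
  have h1 : ((Algebra.norm ℤ x : ℤ) : ℚ) = a ^ 2 - p * b ^ 2 := by
    rw [Algebra.coe_norm_int, hx, norm_q hK hp hs]
  have h2 : ((Algebra.trace ℤ (𝓞 K) x : ℤ) : ℚ) = 2 * a := by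
    rw [Algebra.coe_trace_int, hx, trace_q hK hp hs]
  set n := Algebra.norm ℤ x with hn
  set t := Algebra.trace ℤ (𝓞 K) x with ht
  -- `2 b` is an integer
  have h3 : (2 * b) ^ 2 * p = ((t ^ 2 - 4 * n : ℤ) : ℚ) := by
    push_cast
    rw [h1, h2]
    ring
  have hden : (2 * b).den = 1 := by
    set r := 2 * b with hr
    have h4 : (r.num : ℚ) ^ 2 * p = ((t ^ 2 - 4 * n : ℤ) : ℚ) * (r.den : ℚ) ^ 2 := by
      have h5 : (r.num : ℚ) = r * r.den := (Rat.mul_den_eq_num r).symm
      rw [h5, ← h3]; ring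
    have h6 : r.num ^ 2 * (p : ℤ) = (t ^ 2 - 4 * n) * (r.den : ℤ) ^ 2 := by exact_mod_cast h4
    have h7 : (r.den : ℤ) ^ 2 ∣ r.num ^ 2 * (p : ℤ) := ⟨t ^ 2 - 4 * n, by rw [h6]; ring⟩
    have h8 : IsCoprime ((r.den : ℤ) ^ 2) (r.num ^ 2) := by
      apply IsCoprime.pow
      rw [Int.isCoprime_iff_gcd_eq_one]
      have := r.reduced
      rw [Int.gcd_comm]
      simpa [Int.gcd] using this
    have h9 : (r.den : ℤ) ^ 2 ∣ (p : ℤ) := h8.dvd_of_dvd_mul_left h7
    have h10 : r.den ^ 2 ∣ p := by exact_mod_cast h9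
    have h11 : r.den * r.den ∣ p := by rwa [← pow_two]
    exact Nat.isUnit_iff.1 (hp.squarefree _ h11)
  have hb : ((2 * b).num : ℚ) = 2 * b := by
    have := Rat.mul_den_eq_num (2 * b)
    rw [hden, Nat.cast_one, mul_one] at this
    exact this.symm
  refine ⟨t, (2 * b).num, ?_, ?_⟩
  · have e1 : (t : K) = algebraMap ℚ K (2 * a) := by rw [← h2, map_intCast]
    have e2 : (((2 * b).num : ℤ) : K) = algebraMap ℚ K (2 * b) := by
      have e3 := congrArg (algebraMap ℚ K) hb
      rwa [map_intCast] at e3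
    rw [hx, e1, e2, map_mul, map_mul, map_ofNat]
    ring
  · have h12 : (4 * (n : ℚ)) = (t : ℚ) ^ 2 - p * ((2 * b).num : ℚ) ^ 2 := by
      rw [h1, h2, hb]; ring
    exact_mod_cast h12

/-- Integers with given coordinates. -/
theorem exists_int (t y n : ℤ) (h : 4 * n = t ^ 2 - p * y ^ 2) :
    ∃ x : 𝓞 K, 2 * (x : K) = (t : K) + (y : K) * s ∧ Algebra.norm ℤ x = n := by
  set α : K := algebraMap ℚ K (t / 2) + algebraMap ℚ K (y / 2) * s with hα
  have h2 : 2 * α = (t : K) + (y : K) * s := by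
    rw [hα, map_div₀, map_div₀, map_intCast, map_intCast, map_ofNat]
    field_simp
  have hint : IsIntegral ℤ α := by
    refine ⟨Polynomial.X ^ 2 - Polynomial.C t * Polynomial.X + Polynomial.C n, by monicity!, ?_⟩
    simp only [Polynomial.eval₂_add, Polynomial.eval₂_sub, Polynomial.eval₂_mul,
      Polynomial.eval₂_pow, Polynomial.eval₂_X, Polynomial.eval₂_C]
    have h3 : (4 : K) * ((algebraMap ℤ K) n) = (t : K) ^ 2 - p * (y : K) ^ 2 := by
      have := congrArg (Int.cast (R := K)) h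
      push_cast at this
      simpa using this
    have h4 : (4 : K) ≠ 0 := by norm_num
    apply mul_left_cancel₀ h4
    have e : (algebraMap ℤ K) t = (t : K) := by simp
    rw [e, mul_zero]
    linear_combination h3 + (2 * α - t + y * s) * h2 + (y : K) ^ 2 * hs
  obtain ⟨x, hx⟩ : ∃ x : 𝓞 K, (x : K) = α := ⟨⟨α, hint⟩, rfl⟩
  refine ⟨x, by rw [hx]; exact h2, ?_⟩
  have h5 : ((Algebra.norm ℤ x : ℤ) : ℚ) = n := by
    rw [Algebra.coe_norm_int, hx, hα, norm_q hK hp hs]
    have h6 : (4 : ℚ) * n = t ^ 2 - p * y ^ 2 := by exact_mod_cast h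
    linarith
  exact_mod_cast h5

/-- The coordinates are unique. -/
theorem coords_unique {t y t' y' : ℤ} (h : (t : K) + (y : K) * s = (t' : K) + (y' : K) * s) :
    t = t' ∧ y = y' := by
  have h1 := li hp hs
  rw [LinearIndependent.pair_iff] at h1
  have h2 := h1 ((t - t' : ℤ) : ℚ) ((y - y' : ℤ) : ℚ) (by
    rw [Algebra.smul_def, Algebra.smul_def, map_intCast, map_intCast, mul_one]
    push_cast
    linear_combination h)
  have h3 : t - t' = 0 := by exact_mod_cast h2.1
  have h4 : y - y' = 0 := by exact_mod_cast h2.2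
  omega

/-- A criterion for ideals of norm `q`. -/
theorem ideal_of (q : ℕ) (hq : q.Prime) (t y n : ℤ) (h : 4 * ((q : ℤ) * n) = t ^ 2 - p * y ^ 2)
    (hnd : ∀ t' y' : ℤ, t = q * t' → y = q * y' → ¬ (4 : ℤ) ∣ t' ^ 2 - p * y' ^ 2) :
    ∃ P : Ideal (𝓞 K), Ideal.absNorm P = q := by
  obtain ⟨x, hx, hxn⟩ := exists_int hK hp hs t y _ h
  obtain ⟨x', hx', -⟩ := exists_int hK hp hs t (-y) _ (by rw [h]; ring)
  have hxx : x * x' = (((q : ℤ) * n : ℤ) : 𝓞 K) := by
    apply RingOfIntegers.ext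
    have h4 : (4 : K) ≠ 0 := by norm_num
    apply mul_left_cancel₀ h4
    have e1 : (((((q : ℤ) * n : ℤ) : 𝓞 K)) : K) = (((q : ℤ) * n : ℤ) : K) :=
      map_intCast (algebraMap (𝓞 K) K) _
    have e2 : ((x * x' : 𝓞 K) : K) = (x : K) * (x' : K) := rfl
    rw [e1, e2]
    have h5 := congrArg (Int.cast (R := K)) h
    push_cast at h5 hx hx' ⊢
    linear_combination 2 * (x' : K) * hx + ((t : K) + y * s) * hx' - (y : K) ^ 2 * hs - h5
  -- not divisible by `q`
  have hnx : ∀ z : 𝓞 K, x ≠ (q : 𝓞 K) * z := by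
    rintro z hz
    obtain ⟨t', y', h1, h2⟩ := int_coords hK hp hs z
    have h3 : (t : K) + (y : K) * s = ((q * t' : ℤ) : K) + ((q * y' : ℤ) : K) * s := by
      rw [← hx, hz]
      have e2 : (((q : 𝓞 K) * z : 𝓞 K) : K) = (q : K) * (z : K) := by
        simp
      rw [e2]
      push_cast
      linear_combination (q : K) * h1
    obtain ⟨h4, h5⟩ := coords_unique hK hp hs h3
    exact hnd t' y' h4 h5 ⟨_, h2.symm⟩
  have hnx' : ∀ z : 𝓞 K, x' ≠ (q : 𝓞 K) * z := by
    rintro z hz
    obtain ⟨t', y', h1, h2⟩ := int_coords hK hp hs z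
    have h3 : (t : K) + ((-y : ℤ) : K) * s = ((q * t' : ℤ) : K) + ((q * y' : ℤ) : K) * s := by
      rw [← hx', hz]
      have e2 : (((q : 𝓞 K) * z : 𝓞 K) : K) = (q : K) * (z : K) := by
        simp
      rw [e2]
      push_cast
      linear_combination (q : K) * h1
    obtain ⟨h4, h5⟩ := coords_unique hK hp hs h3
    refine hnd t' (-y') h4 (by rw [← neg_inj, h5]; ring) ⟨Algebra.norm ℤ z, ?_⟩
    rw [h2]; ring
  set I : Ideal (𝓞 K) := Ideal.span {((q : ℕ) : 𝓞 K)} ⊔ Ideal.span {x} with hI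
  have hspan : Ideal.span {((q : ℕ) : 𝓞 K)} ≤ I := le_sup_left
  have hnq : Ideal.absNorm (Ideal.span {((q : ℕ) : 𝓞 K)}) = q ^ 2 := by
    rw [Ideal.absNorm_span_singleton]
    have e : ((q : ℕ) : 𝓞 K) = algebraMap ℤ (𝓞 K) (q : ℤ) := by simp
    rw [e, Algebra.norm_algebraMap, RingOfIntegers.rank, hK]
    simp
  have hdvd : Ideal.absNorm I ∣ q ^ 2 := by
    rw [← hnq]
    exact Ideal.absNorm_dvd_absNorm_of_le hspan
  obtain ⟨i, hi, hPi⟩ := (Nat.dvd_prime_pow hq).1 hdvd
  refine ⟨I, ?_⟩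
  interval_cases i
  · exfalso
    rw [pow_zero, Ideal.absNorm_eq_one_iff] at hPi
    have h1 : (1 : 𝓞 K) ∈ I := by rw [hPi]; trivial
    rw [hI, Submodule.mem_sup] at h1
    obtain ⟨u, hu, v, hv, huv⟩ := h1
    obtain ⟨u', rfl⟩ := Ideal.mem_span_singleton'.1 hu
    obtain ⟨v', rfl⟩ := Ideal.mem_span_singleton'.1 hv
    apply hnx' (u' * x' + v' * (n : 𝓞 K))
    have h2 : x' = x' * (u' * ((q : ℕ) : 𝓞 K) + v' * x) := by rw [huv, mul_one]
    push_cast at hxx
    linear_combination h2 + v' * hxx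
  · rw [hPi, pow_one]
  · exfalso
    have h1 : Ideal.span {((q : ℕ) : 𝓞 K)} = I := by
      obtain ⟨J, hJ⟩ := Ideal.dvd_iff_le.2 hspan
      have h2 : Ideal.absNorm J = 1 := by
        have h3 : q ^ 2 = q ^ 2 * Ideal.absNorm J := by
          conv_lhs => rw [← hnq, hJ, map_mul, hPi]
        have h4 : 0 < q ^ 2 := pow_pos hq.pos 2
        exact (Nat.eq_of_mul_eq_mul_left h4 (by rw [mul_one]; exact h3)).symm
      rw [Ideal.absNorm_eq_one_iff] at h2
      rw [hJ, h2, Ideal.mul_top]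
    have h2 : x ∈ Ideal.span {((q : ℕ) : 𝓞 K)} := by
      rw [h1, hI]
      exact Submodule.mem_sup_right (Ideal.mem_span_singleton_self x)
    obtain ⟨z, hz⟩ := Ideal.mem_span_singleton.1 h2
    exact hnx z hz

/-- An ideal of norm `q` exists iff `p` is a square modulo `q` (`p` not `5` modulo `8` for `q = 2`). -/
theorem ideal_iff (q : ℕ) (hq : q.Prime) :
    (∃ P : Ideal (𝓞 K), Ideal.absNorm P = q) ↔ IsRes p q := by
  constructor
  · rintro ⟨P, hP⟩
    -- every integer is congruent to a rational integer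
    have hsurj : ∀ x : 𝓞 K, ∃ r : ℤ, x - (r : 𝓞 K) ∈ P := by
      intro x
      have hcard : Nat.card (𝓞 K ⧸ P) = q := by
        rw [← hP, Ideal.absNorm_apply, Submodule.cardQuot_apply]
      haveI : Fact q.Prime := ⟨hq⟩
      have hne : (Ideal.Quotient.mk P 1) ≠ 0 := by
        intro h0
        rw [Ideal.Quotient.eq_zero_iff_mem] at h0
        rw [(Ideal.eq_top_iff_one P).2 h0, Ideal.absNorm_top] at hP
        exact hq.one_lt.ne hP
      have h1 : Ideal.Quotient.mk P x ∈ AddSubgroup.zmultiples (Ideal.Quotient.mk P 1) :=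
        mem_zmultiples_of_prime_card hcard hne
      obtain ⟨r, hr⟩ := AddSubgroup.mem_zmultiples_iff.1 h1
      refine ⟨r, ?_⟩
      rw [← Ideal.Quotient.eq_zero_iff_mem, map_sub, ← hr, map_one]
      simp
    have hdvd : ∀ x : 𝓞 K, x ∈ P → (q : ℤ) ∣ Algebra.norm ℤ x := by
      intro x hx
      rw [← hP, ← Int.dvd_natAbs, Int.natCast_dvd_natCast]
      have := Ideal.absNorm_dvd_norm_of_mem hx
      rwa [← Int.natCast_dvd_natCast, Int.dvd_natAbs]
    unfold IsRes
    split_ifs with h2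
    · subst h2
      intro h5
      obtain ⟨x, hx, -⟩ := exists_int hK hp hs 1 1 ((1 - p) / 4) (by
        have : (4 : ℤ) ∣ 1 - p := by omega
        rw [Int.mul_ediv_cancel' this]; ring)
      obtain ⟨r, hr⟩ := hsurj x
      obtain ⟨t, y, h6, h7⟩ := int_coords hK hp hs (x - (r : 𝓞 K))
      have h8 : (t : K) + (y : K) * s = ((1 - 2 * r : ℤ) : K) + ((1 : ℤ) : K) * s := by
        rw [← h6]
        have e2 : ((x - (r : 𝓞 K) : 𝓞 K) : K) = (x : K) - (r : K) := by
          simp
        rw [e2]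
        push_cast at hx ⊢
        linear_combination hx
      obtain ⟨rfl, rfl⟩ := coords_unique hK hp hs h8
      have h9 := hdvd _ hr
      obtain ⟨m, hm⟩ := h9
      rw [hm] at h7
      have h10 : (1 - 2 * r) ^ 2 = 1 - 4 * r + 4 * (r * r) := by ring
      rw [h10] at h7
      have h11 : r * r % 2 = r % 2 := by
        rcases Int.emod_two_eq_zero_or_one r with h | h <;> simp [Int.mul_emod, h]
      have h12 : (p : ℤ) % 8 = 5 := by exact_mod_cast h5
      push_cast at h7
      omega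
    · obtain ⟨x, hx, -⟩ := exists_int hK hp hs 0 2 (-p) (by ring)
      obtain ⟨r, hr⟩ := hsurj x
      obtain ⟨t, y, h6, h7⟩ := int_coords hK hp hs (x - (r : 𝓞 K))
      have h8 : (t : K) + (y : K) * s = ((-2 * r : ℤ) : K) + ((2 : ℤ) : K) * s := by
        rw [← h6]
        have e2 : ((x - (r : 𝓞 K) : 𝓞 K) : K) = (x : K) - (r : K) := by
          simp
        rw [e2]
        push_cast at hx ⊢
        linear_combination hx
      obtain ⟨rfl, rfl⟩ := coords_unique hK hp hs h8
      refine ⟨r, ?_⟩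
      obtain ⟨m, hm⟩ := hdvd _ hr
      refine ⟨m, ?_⟩
      rw [hm] at h7
      linarith
  · unfold IsRes
    split_ifs with h2
    · subst h2
      intro h5
      rcases Nat.even_or_odd p with hev | hodd
      · have hp2 : p = 2 := (Nat.Prime.even_iff hp).1 hev
        exact ideal_of hK hp hs 2 hq 0 2 (-1) (by rw [hp2]; norm_num) (by
          intro t' y' h1 h2 h3
          have e1 : t' = 0 := by push_cast at h1; omega
          have e2 : y' = 1 := by push_cast at h2; omega
          rw [e1, e2, hp2] at h3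
          norm_num at h3)
      · have hodd' : p % 2 = 1 := Nat.odd_iff.1 hodd
        rcases (by omega : p % 8 = 1 ∨ p % 4 = 3) with h8 | h8
        · obtain ⟨m, hm⟩ : ∃ m : ℤ, (1 : ℤ) - p = 8 * m := ⟨(1 - p) / 8, by omega⟩
          exact ideal_of hK hp hs 2 hq 1 1 m (by push_cast; linarith) (by
            intro t' y' h1 h2 h3
            push_cast at h1
            omega)
        · obtain ⟨m, hm⟩ : ∃ m : ℤ, (1 : ℤ) - p = 2 * m := ⟨(1 - p) / 2, by omega⟩
          exact ideal_of hK hp hs 2 hq 2 2 m (by push_cast; linarith) (by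
            intro t' y' h1 h2 h3
            have e1 : t' = 1 := by push_cast at h1; omega
            have e2 : y' = 1 := by push_cast at h2; omega
            rw [e1, e2] at h3
            omega)
    · rintro ⟨r, m, hm⟩
      exact ideal_of hK hp hs q hq (2 * r) 2 m (by rw [← hm]; ring) (by
        intro t' y' h1 h2' h3
        have h4 : (q : ℤ) ∣ 2 := ⟨y', h2'⟩
        have h5 : q ∣ 2 := by exact_mod_cast h4
        exact h2 ((Nat.prime_dvd_prime_iff_eq hq Nat.prime_two).1 h5))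

/-- An integer of norm `± q` exists iff the equation is solvable. -/
theorem elem_iff (q : ℕ) : (∃ x : 𝓞 K, (Algebra.norm ℤ x).natAbs = q) ↔
    ∃ x y : ℤ, |x ^ 2 - p * y ^ 2| = 4 * q := by
  constructor
  · rintro ⟨x, hx⟩
    obtain ⟨t, y, -, h⟩ := int_coords hK hp hs x
    refine ⟨t, y, ?_⟩
    rw [← h, abs_mul, ← hx, Int.natCast_natAbs]
    norm_num
  · rintro ⟨x, y, h⟩
    rcases abs_cases (x ^ 2 - p * y ^ 2) with ⟨h1, -⟩ | ⟨h1, -⟩
    · obtain ⟨z, -, hz⟩ := exists_int hK hp hs x y q (by rw [← h, h1])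
      exact ⟨z, by rw [hz]; simp⟩
    · obtain ⟨z, -, hz⟩ := exists_int hK hp hs x y (-q) (by linarith)
      exact ⟨z, by rw [hz]; simp⟩

end

end Run7.h576.TP
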